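import Mathlib

set_option autoImplicit false

/-! # A corruption bound for random cuts -/

namespace Pool.Agent.TH697.Apsp

open Finset

variable {k : ℕ}

/-- Triples of a vertex of the first, a vertex of the second and a vertex of the third part. -/
abbrev Tr (k : ℕ) : Type := Fin k × Fin k × Fin k

/-- Cuts: the sides of the vertices of the three parts. -/
abbrev Sd (k : ℕ) : Type := Fin 3 × Fin k → Bool

/-- The first and the last vertex of the triple are on one side, the middle one on the other. -/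
def One (t : Tr k) (s : Sd k) : Prop :=
  s (0, t.1) = s (2, t.2.2) ∧ s (1, t.2.1) ≠ s (0, t.1)

instance instDecOne (t : Tr k) (s : Sd k) : Decidable (One t s) := by
  unfold One; infer_instance

/-- change the side of a vertex -/
def flp (v : Fin 3 × Fin k) (s : Sd k) : Sd k := Function.update s v (!s v)

theorem flp_flp (v : Fin 3 × Fin k) (s : Sd k) : flp v (flp v s) = s := by
  unfold flp
  ext w
  by_cases h : w = v
  · subst h; simp
  · simp [Function.update_of_ne h]

theorem flp_same (v : Fin 3 × Fin k) (s : Sd k) : flp v s v = !s v := by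
  simp [flp]

theorem flp_ne {v w : Fin 3 × Fin k} (h : w ≠ v) (s : Sd k) : flp v s w = s w := by
  simp [flp, Function.update_of_ne h]

theorem flp_bij (v : Fin 3 × Fin k) : Function.Bijective (flp v : Sd k → Sd k) :=
  Function.Involutive.bijective (flp_flp v)

theorem sum_flp (v : Fin 3 × Fin k) (f : Sd k → ℝ) : ∑ s, f (flp v s) = ∑ s, f s :=
  Function.Bijective.sum_comp (flp_bij v) f

/-- a quarter of the cuts -/
theorem sum_one (t : Tr k) : 4 * ∑ s : Sd k, (if One t s then (1 : ℝ) else 0) =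
    Fintype.card (Sd k) := by
  obtain ⟨f, hf⟩ : ∃ f : Sd k → ℝ, f = fun s => if One t s then (1 : ℝ) else 0 := ⟨_, rfl⟩
  have h20 : ((2 : Fin 3), t.2.2) ≠ ((0 : Fin 3), t.1) := by simp
  have h21 : ((2 : Fin 3), t.2.2) ≠ ((1 : Fin 3), t.2.1) := by simp
  have h10 : ((1 : Fin 3), t.2.1) ≠ ((0 : Fin 3), t.1) := by simp
  have key : ∀ s : Sd k, f s + f (flp (2, t.2.2) s) + f (flp (1, t.2.1) s) +
      f (flp (1, t.2.1) (flp (2, t.2.2) s)) = 1 := by
    intro s
    simp only [hf, One, flp_same, flp_ne h20.symm, flp_ne h21.symm, flp_ne h10.symm, flp_ne h21]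
    rcases Bool.eq_false_or_eq_true (s (0, t.1)) with e0 | e0 <;>
      rcases Bool.eq_false_or_eq_true (s (1, t.2.1)) with e1 | e1 <;>
      rcases Bool.eq_false_or_eq_true (s (2, t.2.2)) with e2 | e2 <;> simp [e0, e1, e2]
  have h1 : ∑ s : Sd k, (f s + f (flp (2, t.2.2) s) + f (flp (1, t.2.1) s) +
      f (flp (1, t.2.1) (flp (2, t.2.2) s))) = Fintype.card (Sd k) := by
    rw [Finset.sum_congr rfl (fun s _ => key s)]
    simp
  rw [sum_add_distrib, sum_add_distrib, sum_add_distrib, sum_flp, sum_flp,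
    sum_flp (2, t.2.2) (fun s => f (flp (1, t.2.1) s)), sum_flp] at h1
  have h2 : ∑ s : Sd k, (if One t s then (1 : ℝ) else 0) = ∑ s, f s := by rw [hf]
  rw [h2]
  linarith

/-- the triple has a vertex which is in none of the triples `p i` -/
def New {l : ℕ} (p : Fin l → Tr k) (t : Tr k) : Prop :=
  (∀ i, (p i).1 ≠ t.1) ∨ (∀ i, (p i).2.1 ≠ t.2.1) ∨ (∀ i, (p i).2.2 ≠ t.2.2)

/-- the indicator that all the triples `p i` are cut by `s` -/
def allOne {l : ℕ} (p : Fin l → Tr k) (s : Sd k) : ℝ := ∏ i, (if One (p i) s then (1 : ℝ) else 0)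

theorem allOne_nonneg {l : ℕ} (p : Fin l → Tr k) (s : Sd k) : 0 ≤ allOne p s :=
  prod_nonneg fun i _ => by split_ifs <;> norm_num

theorem allOne_flp {l : ℕ} (p : Fin l → Tr k) (v : Fin 3 × Fin k)
    (h : ∀ i, v ≠ (0, (p i).1) ∧ v ≠ (1, (p i).2.1) ∧ v ≠ (2, (p i).2.2)) (s : Sd k) :
    allOne p (flp v s) = allOne p s := by
  unfold allOne
  refine prod_congr rfl fun i _ => ?_
  obtain ⟨h0, h1, h2⟩ := h i
  have e : One (p i) (flp v s) ↔ One (p i) s := by
    unfold One
    rw [flp_ne h0.symm, flp_ne h1.symm, flp_ne h2.symm]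
  simp only [e]

theorem one_flp_le (t : Tr k) (v : Fin 3 × Fin k)
    (h : v = (0, t.1) ∨ v = (1, t.2.1) ∨ v = (2, t.2.2)) (s : Sd k) :
    (if One t s then (1 : ℝ) else 0) + (if One t (flp v s) then (1 : ℝ) else 0) ≤ 1 := by
  have h20 : ((2 : Fin 3), t.2.2) ≠ ((0 : Fin 3), t.1) := by simp
  have h21 : ((2 : Fin 3), t.2.2) ≠ ((1 : Fin 3), t.2.1) := by simp
  have h10 : ((1 : Fin 3), t.2.1) ≠ ((0 : Fin 3), t.1) := by simp
  rcases h with rfl | rfl | rfl
  · simp only [One, flp_same, flp_ne h20, flp_ne h10]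
    rcases Bool.eq_false_or_eq_true (s (0, t.1)) with e0 | e0 <;>
      rcases Bool.eq_false_or_eq_true (s (1, t.2.1)) with e1 | e1 <;>
      rcases Bool.eq_false_or_eq_true (s (2, t.2.2)) with e2 | e2 <;> simp [e0, e1, e2]
  · simp only [One, flp_same, flp_ne h21, flp_ne h10.symm]
    rcases Bool.eq_false_or_eq_true (s (0, t.1)) with e0 | e0 <;>
      rcases Bool.eq_false_or_eq_true (s (1, t.2.1)) with e1 | e1 <;>
      rcases Bool.eq_false_or_eq_true (s (2, t.2.2)) with e2 | e2 <;> simp [e0, e1, e2]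
  · simp only [One, flp_same, flp_ne h20.symm, flp_ne h21.symm]
    rcases Bool.eq_false_or_eq_true (s (0, t.1)) with e0 | e0 <;>
      rcases Bool.eq_false_or_eq_true (s (1, t.2.1)) with e1 | e1 <;>
      rcases Bool.eq_false_or_eq_true (s (2, t.2.2)) with e2 | e2 <;> simp [e0, e1, e2]

/-- a new triple is cut in at most half of the cases -/
theorem new_half {l : ℕ} (p : Fin l → Tr k) (t : Tr k) (h : New p t) :
    ∑ s, allOne p s * (if One t s then (1 : ℝ) else 0) ≤ (∑ s, allOne p s) / 2 := by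
  obtain ⟨v, hv1, hv2⟩ : ∃ v : Fin 3 × Fin k,
      (v = (0, t.1) ∨ v = (1, t.2.1) ∨ v = (2, t.2.2)) ∧
      ∀ i, v ≠ (0, (p i).1) ∧ v ≠ (1, (p i).2.1) ∧ v ≠ (2, (p i).2.2) := by
    rcases h with h | h | h
    · refine ⟨(0, t.1), Or.inl rfl, fun i => ⟨?_, by simp, by simp⟩⟩
      intro e
      exact h i (Prod.ext_iff.1 e).2.symm
    · refine ⟨(1, t.2.1), Or.inr (Or.inl rfl), fun i => ⟨by simp, ?_, by simp⟩⟩
      intro e
      exact h i (Prod.ext_iff.1 e).2.symm
    · refine ⟨(2, t.2.2), Or.inr (Or.inr rfl), fun i => ⟨by simp, by simp, ?_⟩⟩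
      intro e
      exact h i (Prod.ext_iff.1 e).2.symm
  have h1 := sum_flp v (fun s => allOne p s * (if One t s then (1 : ℝ) else 0))
  simp only [allOne_flp p v hv2] at h1
  have h2 : ∑ s, allOne p s * (if One t s then (1 : ℝ) else 0) +
      ∑ s, allOne p s * (if One t (flp v s) then (1 : ℝ) else 0) ≤ ∑ s, allOne p s := by
    rw [← sum_add_distrib]
    refine sum_le_sum fun s _ => ?_
    rw [← mul_add]
    calc _ ≤ allOne p s * 1 :=
          mul_le_mul_of_nonneg_left (one_flp_le t v hv1 s) (allOne_nonneg p s)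
      _ = allOne p s := mul_one _
  linarith

theorem old_card {l : ℕ} (p : Fin l → Tr k) [DecidablePred (New p)] :
    ((univ : Finset (Tr k)).filter (fun t => ¬ New p t)).card ≤ l ^ 3 := by
  classical
  have hsub : (univ : Finset (Tr k)).filter (fun t => ¬ New p t) ⊆
      (univ.image (fun i => (p i).1)) ×ˢ ((univ.image (fun i => (p i).2.1)) ×ˢ
        (univ.image (fun i => (p i).2.2))) := by
    intro t ht
    rw [mem_filter] at ht
    have ht2 := ht.2
    unfold New at ht2
    push Not at ht2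
    obtain ⟨⟨i, hi⟩, ⟨i', hi'⟩, ⟨i'', hi''⟩⟩ := ht2
    rw [mem_product, mem_product, mem_image, mem_image, mem_image]
    exact ⟨⟨i, mem_univ _, hi⟩, ⟨i', mem_univ _, hi'⟩, ⟨i'', mem_univ _, hi''⟩⟩
  refine (card_le_card hsub).trans ?_
  rw [card_product, card_product]
  have h1 : ∀ f : Fin l → Fin k, (univ.image f).card ≤ l := fun f =>
    card_image_le.trans (by simp)
  calc _ ≤ l * (l * l) := Nat.mul_le_mul (h1 _) (Nat.mul_le_mul (h1 _) (h1 _))
    _ = l ^ 3 := by ring

theorem step {l : ℕ} (u : Tr k → ℝ) (hu0 : ∀ t, 0 ≤ u t) (hu1 : ∀ t, u t ≤ 1)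
    (p : Fin l → Tr k) :
    ∑ s, allOne p s * ∑ t, u t * (if One t s then (1 : ℝ) else 0) ≤
      ((∑ t, u t) / 2 + (l : ℝ) ^ 3) * ∑ s, allOne p s := by
  classical
  have h0 : 0 ≤ ∑ s, allOne p s := sum_nonneg fun s _ => allOne_nonneg p s
  have h1 : ∑ s, allOne p s * ∑ t, u t * (if One t s then (1 : ℝ) else 0) =
      ∑ t, u t * ∑ s, allOne p s * (if One t s then (1 : ℝ) else 0) := by
    simp_rw [mul_sum]
    rw [sum_comm]
    refine sum_congr rfl fun t _ => sum_congr rfl fun s _ => ?_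
    ring
  have h2 : ∀ t, u t * ∑ s, allOne p s * (if One t s then (1 : ℝ) else 0) ≤
      (u t / 2 + (if ¬ New p t then (1 : ℝ) else 0)) * ∑ s, allOne p s := by
    intro t
    by_cases hn : New p t
    · rw [if_neg (by simpa using hn), add_zero]
      calc _ ≤ u t * ((∑ s, allOne p s) / 2) :=
            mul_le_mul_of_nonneg_left (new_half p t hn) (hu0 t)
        _ = _ := by ring
    · rw [if_pos hn]
      have h3 : ∑ s, allOne p s * (if One t s then (1 : ℝ) else 0) ≤ ∑ s, allOne p s := by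
        refine sum_le_sum fun s _ => ?_
        have := allOne_nonneg p s
        split_ifs <;> linarith
      calc _ ≤ u t * ∑ s, allOne p s := mul_le_mul_of_nonneg_left h3 (hu0 t)
        _ ≤ _ := by
            apply mul_le_mul_of_nonneg_right _ h0
            have := hu0 t
            have := hu1 t
            linarith
  rw [h1]
  refine (sum_le_sum fun t _ => h2 t).trans ?_
  rw [← sum_mul]
  refine mul_le_mul_of_nonneg_right ?_ h0
  rw [sum_add_distrib, ← sum_div]
  have h4 : ∑ t : Tr k, (if ¬ New p t then (1 : ℝ) else 0) ≤ (l : ℝ) ^ 3 := by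
    rw [← sum_filter, sum_const, nsmul_eq_mul, mul_one]
    exact_mod_cast old_card p
  linarith

/-- moments of the weight of the triples which are cut -/
theorem moment (u : Tr k → ℝ) (hu0 : ∀ t, 0 ≤ u t) (hu1 : ∀ t, u t ≤ 1) (l : ℕ) :
    ∑ s : Sd k, (∑ t, u t * (if One t s then (1 : ℝ) else 0)) ^ l ≤
      (∏ j ∈ range l, ((∑ t, u t) / 2 + (j : ℝ) ^ 3)) * Fintype.card (Sd k) := by
  induction l with
  | zero => simp
  | succ l ih =>
    have hU : 0 ≤ ∑ t, u t := sum_nonneg fun t _ => hu0 t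
    have e1 : ∀ s : Sd k, (∑ t, u t * (if One t s then (1 : ℝ) else 0)) ^ l =
        ∑ p : Fin l → Tr k, (∏ i, u (p i)) * allOne p s := by
      intro s
      rw [Fintype.sum_pow]
      refine sum_congr rfl fun p _ => ?_
      rw [prod_mul_distrib]
      rfl
    have e2 : ∑ s : Sd k, (∑ t, u t * (if One t s then (1 : ℝ) else 0)) ^ (l + 1) =
        ∑ p : Fin l → Tr k, (∏ i, u (p i)) *
          ∑ s, allOne p s * ∑ t, u t * (if One t s then (1 : ℝ) else 0) := by
      simp_rw [pow_succ, e1, sum_mul, mul_sum]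
      rw [sum_comm]
      refine sum_congr rfl fun p _ => ?_
      refine sum_congr rfl fun s _ => sum_congr rfl fun t _ => ?_
      ring
    have e3 : ∑ s : Sd k, (∑ t, u t * (if One t s then (1 : ℝ) else 0)) ^ l =
        ∑ p : Fin l → Tr k, (∏ i, u (p i)) * ∑ s, allOne p s := by
      simp_rw [e1, mul_sum]
      rw [sum_comm]
    rw [e2, prod_range_succ]
    calc ∑ p : Fin l → Tr k, (∏ i, u (p i)) *
          ∑ s, allOne p s * ∑ t, u t * (if One t s then (1 : ℝ) else 0)
        ≤ ∑ p : Fin l → Tr k, (∏ i, u (p i)) *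
          (((∑ t, u t) / 2 + (l : ℝ) ^ 3) * ∑ s, allOne p s) :=
          sum_le_sum fun p _ => mul_le_mul_of_nonneg_left (step u hu0 hu1 p)
            (prod_nonneg fun i _ => hu0 _)
      _ = ((∑ t, u t) / 2 + (l : ℝ) ^ 3) *
          ∑ s : Sd k, (∑ t, u t * (if One t s then (1 : ℝ) else 0)) ^ l := by
          rw [e3, mul_sum]
          refine sum_congr rfl fun p _ => ?_
          ring
      _ ≤ ((∑ t, u t) / 2 + (l : ℝ) ^ 3) *
          ((∏ j ∈ range l, ((∑ t, u t) / 2 + (j : ℝ) ^ 3)) * Fintype.card (Sd k)) :=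
          mul_le_mul_of_nonneg_left ih (by positivity)
      _ = _ := by ring

theorem num_bound (l : ℕ) : 8 * ((l : ℝ) + 1) ^ 3 * (3 / 4) ^ l ≤ 640 := by
  have hbig : ∀ m : ℕ, 8 * (((m + 10 : ℕ) : ℝ) + 1) ^ 3 * (3 / 4) ^ (m + 10) ≤ 640 := by
    intro m
    induction m with
    | zero => norm_num
    | succ m ih =>
      have h1 : (((m + 1 + 10 : ℕ) : ℝ) + 1) ^ 3 * (3 / 4) ≤ (((m + 10 : ℕ) : ℝ) + 1) ^ 3 := by
        push_cast
        have hm : (0 : ℝ) ≤ m := Nat.cast_nonneg m
        nlinarith [sq_nonneg (m : ℝ), mul_nonneg hm hm, mul_nonneg hm (mul_nonneg hm hm)]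
      calc 8 * (((m + 1 + 10 : ℕ) : ℝ) + 1) ^ 3 * (3 / 4) ^ (m + 1 + 10)
          = 8 * ((((m + 1 + 10 : ℕ) : ℝ) + 1) ^ 3 * (3 / 4)) * (3 / 4) ^ (m + 10) := by ring
        _ ≤ 8 * (((m + 10 : ℕ) : ℝ) + 1) ^ 3 * (3 / 4) ^ (m + 10) := by gcongr
        _ ≤ 640 := ih
  rcases Nat.lt_or_ge l 10 with h | h
  · interval_cases l <;> norm_num
  · obtain ⟨m, rfl⟩ := Nat.exists_eq_add_of_le' h
    exact hbig m

/-- **Corruption bound.** -/
theorem corruption (u : Tr k → ℝ) (hu0 : ∀ t, 0 ≤ u t) (hu1 : ∀ t, u t ≤ 1) :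
    ∑ s : Sd k, max 0 (6 * (∑ t, u t * (if One t s then (1 : ℝ) else 0)) - 5 * ∑ t, u t) ≤
      640 * Fintype.card (Sd k) := by
  obtain ⟨U, hUdef⟩ : ∃ U : ℝ, U = ∑ t, u t := ⟨_, rfl⟩
  obtain ⟨O, hO⟩ : ∃ O : Sd k → ℝ, O = fun s => ∑ t, u t * (if One t s then (1 : ℝ) else 0) :=
    ⟨_, rfl⟩
  have hU0 : 0 ≤ U := by rw [hUdef]; exact sum_nonneg fun t _ => hu0 t
  have hO0 : ∀ s, 0 ≤ O s := by
    intro s
    rw [hO]
    exact sum_nonneg fun t _ => mul_nonneg (hu0 t) (by split_ifs <;> norm_num)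
  have hOU : ∀ s, O s ≤ U := by
    intro s
    rw [hO, hUdef]
    refine sum_le_sum fun t _ => ?_
    have := hu0 t
    split_ifs <;> linarith
  have hcard : (0 : ℝ) ≤ Fintype.card (Sd k) := Nat.cast_nonneg _
  have hgoal : ∑ s : Sd k, max 0 (6 * O s - 5 * U) ≤ 640 * Fintype.card (Sd k) := by
    rcases hU0.eq_or_lt with h0 | hpos
    · have : ∀ s, max 0 (6 * O s - 5 * U) = 0 := by
        intro s
        have h1 := hOU s
        have h2 := hO0 s
        rw [← h0] at h1 ⊢
        have : O s = 0 := le_antisymm h1 h2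
        simp [this]
      simp only [this, sum_const_zero]
      positivity
    · -- choose the moment
      obtain ⟨l, hl1, hl2⟩ : ∃ l : ℕ, 8 * (l : ℝ) ^ 3 ≤ U ∧ U < 8 * ((l : ℝ) + 1) ^ 3 := by
        have hex : ∃ l : ℕ, U < 8 * ((l : ℝ) + 1) ^ 3 := by
          obtain ⟨N, hN⟩ := exists_nat_gt U
          refine ⟨N, ?_⟩
          have hN0 : (0 : ℝ) ≤ N := Nat.cast_nonneg N
          nlinarith [mul_nonneg hN0 hN0, mul_nonneg hN0 (mul_nonneg hN0 hN0)]
        classical
        refine ⟨Nat.find hex, ?_, Nat.find_spec hex⟩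
        rcases Nat.eq_zero_or_pos (Nat.find hex) with h | h
        · rw [h]; simp; exact hU0
        · have h2 := Nat.find_min hex (Nat.sub_lt h one_pos)
          push Not at h2
          have e : (((Nat.find hex - 1 : ℕ) : ℝ) + 1) = (Nat.find hex : ℝ) := by
            rw [Nat.cast_sub h]
            simp
          rwa [e] at h2
      have hmom := moment u hu0 hu1 l
      rw [← hUdef] at hmom
      have hprod : ∏ j ∈ range l, (U / 2 + (j : ℝ) ^ 3) ≤ (5 / 8 * U) ^ l := by
        calc ∏ j ∈ range l, (U / 2 + (j : ℝ) ^ 3) ≤ ∏ _j ∈ range l, (5 / 8 * U) := by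
              refine prod_le_prod (fun j _ => by positivity) fun j hj => ?_
              have h1 : (j : ℝ) ≤ l := by exact_mod_cast (mem_range.1 hj).le
              have h2 : (j : ℝ) ^ 3 ≤ (l : ℝ) ^ 3 := by gcongr
              linarith
          _ = (5 / 8 * U) ^ l := by simp
      have hpt : ∀ s, max 0 (6 * O s - 5 * U) ≤ U * (6 / (5 * U)) ^ l * O s ^ l := by
        intro s
        have h1 := hO0 s
        refine max_le (by positivity) ?_
        rcases le_or_gt (6 * O s) (5 * U) with h | h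
        · have : 0 ≤ U * (6 / (5 * U)) ^ l * O s ^ l := by positivity
          linarith
        · have h2 : 1 ≤ 6 / (5 * U) * O s := by
            rw [div_mul_eq_mul_div, le_div_iff₀ (by positivity)]
            linarith
          have h3 : 1 ≤ (6 / (5 * U) * O s) ^ l := one_le_pow₀ h2
          have h4 : U * (6 / (5 * U)) ^ l * O s ^ l = U * (6 / (5 * U) * O s) ^ l := by
            rw [mul_pow]; ring
          rw [h4]
          have h5 := hOU s
          nlinarith
      calc ∑ s : Sd k, max 0 (6 * O s - 5 * U) ≤ ∑ s, U * (6 / (5 * U)) ^ l * O s ^ l :=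
            sum_le_sum fun s _ => hpt s
        _ = U * (6 / (5 * U)) ^ l * ∑ s, O s ^ l := by rw [mul_sum]
        _ ≤ U * (6 / (5 * U)) ^ l * ((5 / 8 * U) ^ l * Fintype.card (Sd k)) := by
            refine mul_le_mul_of_nonneg_left ?_ (by positivity)
            rw [hO]
            refine hmom.trans ?_
            exact mul_le_mul_of_nonneg_right hprod hcard
        _ = U * (3 / 4) ^ l * Fintype.card (Sd k) := by
            have : (6 / (5 * U)) ^ l * (5 / 8 * U) ^ l = (3 / 4) ^ l := by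
              rw [← mul_pow]
              congr 1
              field_simp
              norm_num
            calc _ = U * ((6 / (5 * U)) ^ l * (5 / 8 * U) ^ l) * Fintype.card (Sd k) := by ring
              _ = _ := by rw [this]
        _ ≤ (8 * ((l : ℝ) + 1) ^ 3 * (3 / 4) ^ l) * Fintype.card (Sd k) := by
            refine mul_le_mul_of_nonneg_right ?_ hcard
            exact mul_le_mul_of_nonneg_right hl2.le (by positivity)
        _ ≤ 640 * Fintype.card (Sd k) := mul_le_mul_of_nonneg_right (num_bound l) hcard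
  rw [hO, hUdef] at hgoal
  exact hgoal

end Pool.Agent.TH697.Apsp
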