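import Mathlib

set_option autoImplicit false

/-! # Linear programs for all-pairs shortest paths: definitions -/

namespace Pool.Agent.TH697.Apsp

/-- A linear program with `m` inequalities
`∑ e, A l e * w e + ∑ j, B l j * y j ≤ c l` in the input variables `w e` (`e : E`) and in `p`
further real variables `y j`, with arbitrary real coefficients. -/
structure LP (E : Type) (m : ℕ) where
  p : ℕ
  A : Fin m → E → ℝ
  B : Fin m → Fin p → ℝ
  c : Fin m → ℝ

/-- The program accepts the input `w` if it is feasible for this input. -/
def LP.Accepts {E : Type} [Fintype E] {m : ℕ} (P : LP E m) (w : E → ℝ) : Prop :=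
  ∃ y : Fin P.p → ℝ, ∀ l, ∑ e, P.A l e * w e + ∑ j, P.B l j * y j ≤ P.c l

/-- The total weight of the walk which starts in `u`, visits the vertices of the list in this order
and ends in `v`. -/
def len {V : Type} (w : V → V → ℕ) : V → List V → V → ℕ
  | u, [], v => w u v
  | u, x :: l, v => w u x + len w x l v

/-- The distance: the least total weight of a walk from `u` to `v`. -/
noncomputable def dist {V : Type} (w : V → V → ℕ) (u v : V) : ℕ :=
  sInf (Set.range fun l => len w u l v)

/-- `w` is the weight matrix of a complete undirected graph with the vertices `0, ..., n - 1` whose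
edges have integer weights between `1` and `W`. -/
structure IsWeights (n W : ℕ) (w : Fin n → Fin n → ℕ) : Prop where
  diag : ∀ u, w u u = 0
  symm : ∀ u v, w u v = w v u
  range : ∀ u v, u ≠ v → 1 ≤ w u v ∧ w u v ≤ W

end Pool.Agent.TH697.Apsp
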