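import Pool.Agent.TH697.Apsp.Main

set_option autoImplicit false

/-! # The lower bound and the upper bound -/

namespace Pool.Agent.TH697.Apsp

open Finset

/-! ## weights on `Fin n` -/

section

variable {n k r : ℕ} (e : Fin n ≃ Vt k r)

/-- the weights of a point on the vertices `0, ..., n - 1` -/
def Pt.W (p : Pt k) : Fin n → Fin n → ℕ := fun u v => p.w (e u) (e v)

theorem Pt.Good.isWeights {p : Pt k} (h : p.Good) : IsWeights n 900 (p.W e) := by
  refine ⟨fun u => wt_self _, fun u v => wt_symm _ _, fun u v huv => ⟨?_, ?_⟩⟩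
  · have h1 := wt_low (x0 := p.x0) (x1 := p.x1) (x2 := p.x2) (fun a b => (h.h0 a b).1)
      (fun a b => (h.h1 a b).1) (fun a b => (h.h2 a b).1) (e u) (e v) (fun hh => huv (e.injective hh))
    exact le_trans (by norm_num) h1
  · exact wt_up (fun a b => (h.h0 a b).2) (fun a b => (h.h1 a b).2) (fun a b => (h.h2 a b).2) _ _

theorem Pt.Good.dist_eq {p : Pt k} (h : p.Good) (u v : Fin n) : dist (p.W e) u v = p.W e u v :=
  dist_eq_of_triangle (p.W e) (fun a b c => wt_triangle h.h0 h.h1 h.h2 h.hf (e a) (e b) (e c)) u v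

theorem pV_isWeights (t : Tr k) : IsWeights n 900 ((pV t).W e) := by
  refine ⟨fun u => wt_self _, fun u v => wt_symm _ _, fun u v huv => ⟨?_, ?_⟩⟩
  · refine le_trans (by norm_num) (wt_low (x0 := (pV t).x0) (x1 := (pV t).x1) (x2 := (pV t).x2)
      ?_ ?_ ?_ (e u) (e v) (fun hh => huv (e.injective hh)))
    · intro a b; simp only [pV]; split_ifs <;> norm_num
    · intro a b; simp only [pV]; split_ifs <;> norm_num
    · intro a b; simp only [pV]; split_ifs <;> norm_num
  · refine wt_up ?_ ?_ ?_ _ _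
    · intro a b; simp only [pV]; split_ifs <;> norm_num
    · intro a b; simp only [pV]; split_ifs <;> norm_num
    · intro a b; simp only [pV]; split_ifs <;> norm_num

theorem pV_bad (t : Tr k) : ∃ u v : Fin n, 1001 * dist ((pV t).W e) u v < 1000 * (pV t).W e u v := by
  refine ⟨e.symm (.inl (.inl t.1)), e.symm (.inr (.inl t.2.2)), ?_⟩
  have h1 := dist_le_len ((pV t).W e) (e.symm (.inl (.inl t.1))) (e.symm (.inr (.inl t.2.2)))
    [e.symm (.inl (.inr t.2.1))]
  have h2 : len ((pV t).W e) (e.symm (.inl (.inl t.1))) [e.symm (.inl (.inr t.2.1))]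
      (e.symm (.inr (.inl t.2.2))) = 800 := by
    simp [len, Pt.W, Pt.w, pV, wt]
  have h3 : (pV t).W e (e.symm (.inl (.inl t.1))) (e.symm (.inr (.inl t.2.2))) = 801 := by
    simp [Pt.W, Pt.w, pV, wt]
  rw [h2] at h1
  rw [h3]
  omega

end

/-! ## linear functionals -/

section

variable {n m k r : ℕ} (e : Fin n ≃ Vt k r) (P : LP (Fin n × Fin n) m) (L : Fin m → ℝ)

/-- the value of the combination of the inequalities in a point -/
noncomputable def phi (p : Pt k) : ℝ :=
  ∑ l, L l * (P.c l - ∑ x : Fin n × Fin n, P.A l x * (p.W e x.1 x.2 : ℝ))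

theorem phi_rel (ρ : ℝ) (A B C D E F : Pt k)
    (h : ∀ u v : Vt k r, (A.w u v : ℝ) + B.w u v + ρ * ((C.w u v : ℝ) - D.w u v) =
      E.w u v + F.w u v) :
    phi e P L A + phi e P L B + ρ * (phi e P L C - phi e P L D) = phi e P L E + phi e P L F := by
  unfold phi
  rw [← sum_add_distrib, ← sum_sub_distrib, mul_sum, ← sum_add_distrib, ← sum_add_distrib]
  refine sum_congr rfl fun l _ => ?_
  have h1 : (∑ x : Fin n × Fin n, P.A l x * (A.W e x.1 x.2 : ℝ)) +
      (∑ x : Fin n × Fin n, P.A l x * (B.W e x.1 x.2 : ℝ)) +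
      ρ * ((∑ x : Fin n × Fin n, P.A l x * (C.W e x.1 x.2 : ℝ)) -
        ∑ x : Fin n × Fin n, P.A l x * (D.W e x.1 x.2 : ℝ)) =
      (∑ x : Fin n × Fin n, P.A l x * (E.W e x.1 x.2 : ℝ)) +
      (∑ x : Fin n × Fin n, P.A l x * (F.W e x.1 x.2 : ℝ)) := by
    rw [← sum_add_distrib, ← sum_sub_distrib, mul_sum, ← sum_add_distrib, ← sum_add_distrib]
    refine sum_congr rfl fun x _ => ?_
    have := h (e x.1) (e x.2)
    simp only [Pt.W]
    linear_combination (P.A l x) * this
  linear_combination (-(L l)) * h1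

end

/-! ## the lower bound -/

theorem lower_core {n m k r : ℕ} (e : Fin n ≃ Vt k r) (P : LP (Fin n × Fin n) m)
    (hacc : ∀ w : Fin n → Fin n → ℕ, IsWeights n 900 w → (∀ u v, dist w u v = w u v) →
      P.Accepts (fun x => (w x.1 x.2 : ℝ)))
    (hrej : ∀ w : Fin n → Fin n → ℕ, IsWeights n 900 w →
      (∃ u v, 1001 * dist w u v < 1000 * w u v) → ¬ P.Accepts (fun x => (w x.1 x.2 : ℝ))) :
    k ^ 3 ≤ 4883 * m := by
  classical
  -- slacks
  have hS : ∀ p : Pt k, p.Good → ∃ S : Fin m → ℝ, (∀ l, 0 ≤ S l) ∧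
      ∀ L : Fin m → ℝ, (∀ j, ∑ l, L l * P.B l j = 0) → phi e P L p = ∑ l, L l * S l := by
    intro p hp
    obtain ⟨y, hy⟩ := hacc _ (hp.isWeights e) (hp.dist_eq e)
    refine ⟨fun l => P.c l - ∑ x : Fin n × Fin n, P.A l x * (p.W e x.1 x.2 : ℝ) -
      ∑ j, P.B l j * y j, fun l => ?_, fun L hL => ?_⟩
    · have := hy l
      linarith
    · have h1 : ∑ l, L l * ∑ j, P.B l j * y j = 0 := by
        have : ∑ l, L l * ∑ j, P.B l j * y j = ∑ j, (∑ l, L l * P.B l j) * y j := by
          simp_rw [mul_sum, sum_mul]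
          rw [sum_comm]
          refine sum_congr rfl fun j _ => sum_congr rfl fun l _ => ?_
          ring
        rw [this]
        exact sum_eq_zero fun j _ => by rw [hL j, zero_mul]
      unfold phi
      have h2 : ∀ l, L l * (P.c l - ∑ x : Fin n × Fin n, P.A l x * (p.W e x.1 x.2 : ℝ) -
          ∑ j, P.B l j * y j) = L l * (P.c l - ∑ x : Fin n × Fin n, P.A l x * (p.W e x.1 x.2 : ℝ)) -
          L l * ∑ j, P.B l j * y j := fun l => by ring
      simp_rw [h2]
      rw [sum_sub_distrib, h1, sub_zero]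
  -- multipliers
  have hL : ∀ t : Tr k, ∃ L : Fin m → ℝ, (∀ l, 0 ≤ L l) ∧ (∀ j, ∑ l, L l * P.B l j = 0) ∧
      phi e P L (pV t) < 0 := fun t =>
    P.sep _ (hrej _ (pV_isWeights e t) (pV_bad e t))
  choose L hL0 hLB hLV using hL
  have hv : ∀ s : Sd k, ∃ S : Fin m → ℝ, (∀ l, 0 ≤ S l) ∧
      ∀ L : Fin m → ℝ, (∀ j, ∑ l, L l * P.B l j = 0) → phi e P L (pC s) = ∑ l, L l * S l :=
    fun s => hS _ (pC_good s)
  choose S hS0 hSphi using hv
  have hpos : ∀ (t : Tr k) (p : Pt k), p.Good → 0 ≤ phi e P (L t) p := by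
    intro t p hp
    obtain ⟨S', h1, h2⟩ := hS p hp
    rw [h2 _ (hLB t)]
    exact sum_nonneg fun l _ => mul_nonneg (hL0 t l) (h1 l)
  obtain ⟨α, hα⟩ : ∃ α : Tr k → ℝ, ∀ t, α t = phi e P (L t) (pQ t) - phi e P (L t) (pV t) :=
    ⟨_, fun _ => rfl⟩
  have hQ : ∀ t, phi e P (L t) (pQ t) ≤ α t := by
    intro t
    rw [hα]
    linarith [hLV t]
  have hα0 : ∀ t, 0 < α t := by
    intro t
    rw [hα]
    linarith [hLV t, hpos t _ (pQ_good t)]
  -- relations
  have r1 : ∀ t, phi e P (L t) pD ≤ 2 * phi e P (L t) (pQ t) := by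
    intro t
    have h := phi_rel e P (L t) 0 pD (pR t) pD pD (pQ t) (pQ t) (by
      intro u v
      apply Pt.rel
      · intro a b; simp only [pD, pR, pQ]; split_ifs <;> norm_num
      · intro a b; simp only [pD, pR, pQ]; split_ifs <;> norm_num
      · intro a b; simp only [pD, pR, pQ]; norm_num)
    have := hpos t _ (pR_good t)
    linarith
  have r2 : ∀ t s, phi e P (L t) (pP t s) ≤ 2 * phi e P (L t) (pQ t) := by
    intro t s
    have h := phi_rel e P (L t) 0 (pP t s) (pM t s) pD pD (pQ t) (pQ t) (by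
      intro u v
      apply Pt.rel
      · intro a b; simp only [pP, pM, pQ]; split_ifs <;> norm_num
      · intro a b; simp only [pP, pM, pQ]; split_ifs <;> norm_num
      · intro a b; simp only [pP, pM, pQ]; split_ifs <;> norm_num)
    have := hpos t _ (pM_good t s)
    linarith
  have r3 : ∀ t s, phi e P (L t) (pC s) = phi e P (L t) (pP t s) + phi e P (L t) pD -
      phi e P (L t) (pQ t) + (if One t s then (100 : ℝ) else 0) * α t := by
    intro t s
    have h := phi_rel e P (L t) (if One t s then (100 : ℝ) else 0) (pC s) (pQ t) (pV t) (pQ t)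
      (pP t s) pD (by
      intro u v
      apply Pt.rel
      · intro a b; simp only [pC, pV, pP, pD, pQ]; split_ifs <;> norm_num
      · intro a b; simp only [pC, pV, pP, pD, pQ]; split_ifs <;> norm_num
      · intro a b; simp only [pC, pV, pP, pD, pQ]; split_ifs <;> norm_num)
    rw [hα]
    linarith
  have hzero : ∀ t s, ¬ One t s → phi e P (L t) (pC s) ≤ 3 * α t := by
    intro t s h
    rw [r3, if_neg h]
    linarith [r1 t, r2 t s, hQ t]
  have hone : ∀ t s, One t s → 99 * α t ≤ phi e P (L t) (pC s) := by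
    intro t s h
    rw [r3, if_pos h]
    linarith [hpos t _ (pP_good t s), hpos t _ (pD_good (k := k)), hQ t]
  have hup : ∀ t s, phi e P (L t) (pC s) ≤ 103 * α t := by
    intro t s
    by_cases h : One t s
    · rw [r3, if_pos h]
      linarith [r1 t, r2 t s, hQ t]
    · linarith [hzero t s h, hα0 t]
  -- the matrix
  have hmat : ∀ t s, ∑ l, (L t l / α t) * S s l = phi e P (L t) (pC s) / α t := by
    intro t s
    rw [hSphi s _ (hLB t), sum_div]
    exact sum_congr rfl fun l _ => by ring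
  have hc0 : (0 : ℝ) < Fintype.card (Sd k) := by
    exact_mod_cast Fintype.card_pos
  have hupper : ∑ t : Tr k, ∑ s : Sd k, phi e P (L t) (pC s) / α t *
      (6 * (if One t s then (1 : ℝ) else 0) - 5) ≤ m * (103 * (640 * Fintype.card (Sd k))) := by
    have e1 : ∑ t : Tr k, ∑ s : Sd k, phi e P (L t) (pC s) / α t *
        (6 * (if One t s then (1 : ℝ) else 0) - 5) =
        ∑ l : Fin m, ∑ t : Tr k, ∑ s : Sd k, (L t l / α t) * S s l *
          (6 * (if One t s then (1 : ℝ) else 0) - 5) := by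
      rw [sum_comm' (s := (univ : Finset (Fin m))) (t := fun _ => (univ : Finset (Tr k)))
        (t' := univ) (s' := fun _ => univ) (by simp)]
      refine sum_congr rfl fun t _ => ?_
      rw [sum_comm]
      refine sum_congr rfl fun s _ => ?_
      rw [← hmat, sum_mul]
    rw [e1]
    calc _ ≤ ∑ _l : Fin m, (103 : ℝ) * (640 * Fintype.card (Sd k)) := by
          refine sum_le_sum fun l _ => ?_
          refine rank_one (fun t => L t l / α t) (fun s => S s l) 103 (by norm_num)
            (fun t => div_nonneg (hL0 t l) (hα0 t).le) (fun s => hS0 s l) (fun t s => ?_)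
          calc L t l / α t * S s l ≤ ∑ l', (L t l' / α t) * S s l' :=
                single_le_sum (f := fun l' => (L t l' / α t) * S s l')
                  (fun l' _ => mul_nonneg (div_nonneg (hL0 t l') (hα0 t).le) (hS0 s l'))
                  (mem_univ l)
            _ ≤ 103 := by
                rw [hmat, div_le_iff₀ (hα0 t)]
                exact hup t s
      _ = _ := by rw [sum_const, card_univ, Fintype.card_fin, nsmul_eq_mul]
  have hlower : (k : ℝ) ^ 3 * (13.5 * Fintype.card (Sd k)) ≤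
      ∑ t : Tr k, ∑ s : Sd k, phi e P (L t) (pC s) / α t *
      (6 * (if One t s then (1 : ℝ) else 0) - 5) := by
    have h1 : ∀ t : Tr k, 13.5 * (Fintype.card (Sd k) : ℝ) ≤
        ∑ s : Sd k, phi e P (L t) (pC s) / α t * (6 * (if One t s then (1 : ℝ) else 0) - 5) := by
      intro t
      have h2 : ∀ s, 114 * (if One t s then (1 : ℝ) else 0) - 15 ≤
          phi e P (L t) (pC s) / α t * (6 * (if One t s then (1 : ℝ) else 0) - 5) := by
        intro s
        by_cases h : One t s
        · rw [if_pos h]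
          have := hone t s h
          rw [← le_div_iff₀ (hα0 t)] at this
          linarith
        · rw [if_neg h]
          have := hzero t s h
          rw [← div_le_iff₀ (hα0 t)] at this
          linarith
      have h3 := sum_le_sum fun s (_ : s ∈ (univ : Finset (Sd k))) => h2 s
      rw [sum_sub_distrib, ← mul_sum, sum_const, card_univ, nsmul_eq_mul] at h3
      have h4 := sum_one t
      linarith
    have h5 := sum_le_sum fun t (_ : t ∈ (univ : Finset (Tr k))) => h1 t
    rw [sum_const, card_univ, nsmul_eq_mul] at h5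
    have h6 : ((Fintype.card (Tr k) : ℕ) : ℝ) = (k : ℝ) ^ 3 := by
      simp [Tr]
      ring
    rw [h6] at h5
    exact h5
  have h7 : (k : ℝ) ^ 3 * 13.5 * Fintype.card (Sd k) ≤ (m * (103 * 640)) * Fintype.card (Sd k) := by
    calc _ = (k : ℝ) ^ 3 * (13.5 * Fintype.card (Sd k)) := by ring
      _ ≤ _ := hlower.trans hupper
      _ = _ := by ring
  have h8 := le_of_mul_le_mul_right h7 hc0
  have h9 : (k : ℝ) ^ 3 ≤ 4883 * m := by
    have hm : (0 : ℝ) ≤ m := Nat.cast_nonneg m
    nlinarith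
  exact_mod_cast h9

theorem lower {n m : ℕ} (hn : 3 ≤ n) (P : LP (Fin n × Fin n) m)
    (hacc : ∀ w : Fin n → Fin n → ℕ, IsWeights n 900 w → (∀ u v, dist w u v = w u v) →
      P.Accepts (fun x => (w x.1 x.2 : ℝ)))
    (hrej : ∀ w : Fin n → Fin n → ℕ, IsWeights n 900 w →
      (∃ u v, 1001 * dist w u v < 1000 * w u v) → ¬ P.Accepts (fun x => (w x.1 x.2 : ℝ))) :
    n ^ 3 ≤ 620000 * m := by
  obtain ⟨k, hk⟩ : ∃ k, k = n / 3 := ⟨_, rfl⟩
  obtain ⟨r, hr⟩ : ∃ r, n = (k + k) + (k + r) := ⟨n - 3 * k, by omega⟩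
  have e : Fin n ≃ Vt k r := by
    refine (finCongr hr).trans ?_
    exact (finSumFinEquiv.symm).trans (Equiv.sumCongr finSumFinEquiv.symm finSumFinEquiv.symm)
  have h1 := lower_core e P hacc hrej
  have h2 : n ≤ 5 * k := by omega
  calc n ^ 3 ≤ (5 * k) ^ 3 := Nat.pow_le_pow_left h2 3
    _ = 125 * k ^ 3 := by ring
    _ ≤ 125 * (4883 * m) := Nat.mul_le_mul_left _ h1
    _ ≤ _ := by omega

/-! ## the upper bound -/

theorem upper (n : ℕ) : ∃ P : LP (Fin n × Fin n) (n ^ 3), P.p = 0 ∧
    ∀ w : Fin n → Fin n → ℕ,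
      P.Accepts (fun x => (w x.1 x.2 : ℝ)) ↔ ∀ u v, dist w u v = w u v := by
  classical
  obtain ⟨f, hf⟩ : ∃ f : Fin (n ^ 3) ≃ (Fin 3 → Fin n), f = f :=
    ⟨finFunctionFinEquiv.symm, rfl⟩
  refine ⟨⟨0, fun l x => (if x = (f l 0, f l 2) then 1 else 0) -
    (if x = (f l 0, f l 1) then 1 else 0) - (if x = (f l 1, f l 2) then 1 else 0),
    fun _ j => 0, fun _ => 0⟩, rfl, fun w => ?_⟩
  have key : ∀ l, (∑ x : Fin n × Fin n, (((if x = (f l 0, f l 2) then 1 else 0) -
    (if x = (f l 0, f l 1) then 1 else 0) - (if x = (f l 1, f l 2) then 1 else 0) : ℝ) *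
      (w x.1 x.2 : ℝ))) = (w (f l 0) (f l 2) : ℝ) - w (f l 0) (f l 1) - w (f l 1) (f l 2) := by
    intro l
    simp only [sub_mul, sum_sub_distrib, ite_mul, one_mul, zero_mul, sum_ite_eq', mem_univ,
      if_true]
  constructor
  · rintro ⟨y, hy⟩
    apply dist_eq_of_triangle
    intro u x v
    have h0 := hy (f.symm ![u, x, v])
    have h1 := key (f.symm ![u, x, v])
    simp only [h1, zero_mul, sum_const_zero, add_zero] at h0
    rw [Equiv.apply_symm_apply] at h0
    simp only [Fin.isValue, Matrix.cons_val_zero, Matrix.cons_val_one, Matrix.cons_val] at h0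
    have h2 : (w u v : ℝ) ≤ (w u x : ℝ) + w x v := by linarith
    exact_mod_cast h2
  · intro h
    refine ⟨fun _ => 0, fun l => ?_⟩
    simp only [key]
    have h1 := triangle_of_dist_eq w h (f l 0) (f l 1) (f l 2)
    have h2 : (w (f l 0) (f l 2) : ℝ) ≤ (w (f l 0) (f l 1) : ℝ) + w (f l 1) (f l 2) := by
      exact_mod_cast h1
    simp only [mul_zero, sum_const_zero, add_zero]
    linarith

end Pool.Agent.TH697.Apsp
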