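import Pool.Agent.TH697.Apsp.Sep

set_option autoImplicit false

/-! # Linear programs for all-pairs shortest paths need a cubic number of inequalities -/

namespace Pool.Agent.TH697.Apsp

open Finset

/-! ## nonnegative matrices of rank one -/

theorem rank_one {k : ℕ} (u : Tr k → ℝ) (v : Sd k → ℝ) (H : ℝ) (hH : 0 ≤ H)
    (hu : ∀ t, 0 ≤ u t) (hv : ∀ s, 0 ≤ v s) (huv : ∀ t s, u t * v s ≤ H) :
    ∑ t, ∑ s, u t * v s * (6 * (if One t s then (1 : ℝ) else 0) - 5) ≤
      H * (640 * Fintype.card (Sd k)) := by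
  by_cases hz : ∀ t, u t = 0
  · simp only [hz, zero_mul, sum_const_zero]
    positivity
  push Not at hz
  obtain ⟨t1, ht1⟩ := hz
  obtain ⟨t0, -, ht0⟩ := exists_max_image (univ : Finset (Tr k)) u ⟨t1, mem_univ _⟩
  have hpos : 0 < u t0 :=
    lt_of_lt_of_le (lt_of_le_of_ne (hu t1) (Ne.symm ht1)) (ht0 t1 (mem_univ _))
  have hc := corruption (fun t => u t / u t0) (fun t => div_nonneg (hu t) hpos.le)
    (fun t => (div_le_one hpos).2 (ht0 t (mem_univ _)))
  have e1 : ∑ t, ∑ s, u t * v s * (6 * (if One t s then (1 : ℝ) else 0) - 5) =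
      ∑ s, (u t0 * v s) * (6 * (∑ t, u t / u t0 * (if One t s then (1 : ℝ) else 0)) -
        5 * ∑ t, u t / u t0) := by
    rw [sum_comm]
    refine sum_congr rfl fun s _ => ?_
    rw [mul_sum, mul_sum, ← sum_sub_distrib, mul_sum]
    refine sum_congr rfl fun t _ => ?_
    field_simp
  rw [e1]
  calc _ ≤ ∑ s : Sd k, H * max 0 (6 * (∑ t, u t / u t0 * (if One t s then (1 : ℝ) else 0)) -
        5 * ∑ t, u t / u t0) := by
        refine sum_le_sum fun s _ => ?_
        refine le_trans (mul_le_mul_of_nonneg_left (le_max_right 0 _)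
          (mul_nonneg (hu t0) (hv s))) ?_
        exact mul_le_mul_of_nonneg_right (huv t0 s) (le_max_left _ _)
    _ = H * ∑ s : Sd k, max 0 (6 * (∑ t, u t / u t0 * (if One t s then (1 : ℝ) else 0)) -
        5 * ∑ t, u t / u t0) := (Finset.mul_sum _ _ _).symm
    _ ≤ _ := mul_le_mul_of_nonneg_left hc hH

/-! ## points -/

/-- The weights between the parts. -/
structure Pt (k : ℕ) where
  x0 : Fin k → Fin k → ℕ
  x1 : Fin k → Fin k → ℕ
  x2 : Fin k → Fin k → ℕ

variable {k : ℕ}

/-- the weights of a point -/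
def Pt.w {r : ℕ} (p : Pt k) : Vt k r → Vt k r → ℕ := wt p.x0 p.x1 p.x2

/-- The bounds and the triangle inequalities. -/
structure Pt.Good (p : Pt k) : Prop where
  h0 : ∀ a b, 350 ≤ p.x0 a b ∧ p.x0 a b ≤ 600
  h1 : ∀ a b, 350 ≤ p.x1 a b ∧ p.x1 a b ≤ 600
  h2 : ∀ a b, 700 ≤ p.x2 a b ∧ p.x2 a b ≤ 900
  hf : ∀ i y j, p.x2 i j ≤ p.x0 i y + p.x1 y j

set_option maxHeartbeats 1000000 in
theorem Pt.rel {r : ℕ} (ρ : ℝ) (A B C D E F : Pt k)
    (h0 : ∀ a b, (A.x0 a b : ℝ) + B.x0 a b + ρ * ((C.x0 a b : ℝ) - D.x0 a b) =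
      E.x0 a b + F.x0 a b)
    (h1 : ∀ a b, (A.x1 a b : ℝ) + B.x1 a b + ρ * ((C.x1 a b : ℝ) - D.x1 a b) =
      E.x1 a b + F.x1 a b)
    (h2 : ∀ a b, (A.x2 a b : ℝ) + B.x2 a b + ρ * ((C.x2 a b : ℝ) - D.x2 a b) =
      E.x2 a b + F.x2 a b) (u v : Vt k r) :
    (A.w u v : ℝ) + B.w u v + ρ * ((C.w u v : ℝ) - D.w u v) = E.w u v + F.w u v := by
  rcases u with (i | y) | (j | o) <;> rcases v with (i' | y') | (j' | o') <;>
    simp only [Pt.w, wt] <;>
    first
    | exact h0 _ _
    | exact h1 _ _
    | exact h2 _ _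
    | (split_ifs <;> simp)
    | simp

/-- the base point -/
def pD : Pt k := ⟨fun _ _ => 400, fun _ _ => 400, fun _ _ => 800⟩

/-- the point of a cut -/
def pC (s : Sd k) : Pt k :=
  ⟨fun a b => 400 + if s (0, a) ≠ s (1, b) then 50 else 0,
   fun b c => 400 + if s (1, b) ≠ s (2, c) then 50 else 0,
   fun a c => 800 + if s (0, a) ≠ s (2, c) then 50 else 0⟩

/-- the point for which only the inequality of the triple `t` is tight -/
def pQ (t : Tr k) : Pt k :=
  ⟨fun a b => if a = t.1 ∧ b = t.2.1 then 400 else 500,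
   fun b c => if b = t.2.1 ∧ c = t.2.2 then 400 else 500,
   fun _ _ => 800⟩

/-- the point for which only the inequality of the triple `t` is violated -/
def pV (t : Tr k) : Pt k :=
  ⟨fun a b => if a = t.1 ∧ b = t.2.1 then 400 else 500,
   fun b c => if b = t.2.1 ∧ c = t.2.2 then 400 else 500,
   fun a c => 800 + if a = t.1 ∧ c = t.2.2 then 1 else 0⟩

/-- reflection of the base point -/
def pR (t : Tr k) : Pt k :=
  ⟨fun a b => if a = t.1 ∧ b = t.2.1 then 400 else 600,
   fun b c => if b = t.2.1 ∧ c = t.2.2 then 400 else 600,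
   fun _ _ => 800⟩

/-- forward -/
def pP (t : Tr k) (s : Sd k) : Pt k :=
  ⟨fun a b => (if a = t.1 ∧ b = t.2.1 then 400 else 500) + if s (0, a) ≠ s (1, b) then 50 else 0,
   fun b c => (if b = t.2.1 ∧ c = t.2.2 then 400 else 500) + if s (1, b) ≠ s (2, c) then 50 else 0,
   fun a c => 800 + (if s (0, a) ≠ s (2, c) then 50 else 0) +
    (if a = t.1 ∧ c = t.2.2 then (if One t s then 100 else 0) else 0)⟩

/-- backward -/
def pM (t : Tr k) (s : Sd k) : Pt k :=
  ⟨fun a b => (if a = t.1 ∧ b = t.2.1 then 400 else 500) - if s (0, a) ≠ s (1, b) then 50 else 0,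
   fun b c => (if b = t.2.1 ∧ c = t.2.2 then 400 else 500) - if s (1, b) ≠ s (2, c) then 50 else 0,
   fun a c => 800 - ((if s (0, a) ≠ s (2, c) then 50 else 0) +
    (if a = t.1 ∧ c = t.2.2 then (if One t s then 100 else 0) else 0))⟩

theorem pD_good : (pD : Pt k).Good := by
  constructor <;> intros <;> simp only [pD] <;> norm_num

theorem pC_good (s : Sd k) : (pC s).Good := by
  constructor
  · intro a b; simp only [pC]; split_ifs <;> norm_num
  · intro a b; simp only [pC]; split_ifs <;> norm_num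
  · intro a b; simp only [pC]; split_ifs <;> norm_num
  · intro i y j
    simp only [pC]
    rcases Bool.eq_false_or_eq_true (s (0, i)) with e0 | e0 <;>
      rcases Bool.eq_false_or_eq_true (s (1, y)) with e1 | e1 <;>
      rcases Bool.eq_false_or_eq_true (s (2, j)) with e2 | e2 <;> simp [e0, e1, e2]

theorem pQ_good (t : Tr k) : (pQ t).Good := by
  constructor
  · intro a b; simp only [pQ]; split_ifs <;> norm_num
  · intro a b; simp only [pQ]; split_ifs <;> norm_num
  · intro a b; simp only [pQ]; norm_num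
  · intro i y j; simp only [pQ]; split_ifs <;> norm_num

theorem pR_good (t : Tr k) : (pR t).Good := by
  constructor
  · intro a b; simp only [pR]; split_ifs <;> norm_num
  · intro a b; simp only [pR]; split_ifs <;> norm_num
  · intro a b; simp only [pR]; norm_num
  · intro i y j; simp only [pR]; split_ifs <;> norm_num

theorem not_one_iff (t : Tr k) (s : Sd k) : ¬ One t s ↔
    (if s (0, t.1) ≠ s (1, t.2.1) then 50 else 0) + (if s (1, t.2.1) ≠ s (2, t.2.2) then 50 else 0) =
      (if s (0, t.1) ≠ s (2, t.2.2) then 50 else 0) := by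
  unfold One
  rcases Bool.eq_false_or_eq_true (s (0, t.1)) with e0 | e0 <;>
    rcases Bool.eq_false_or_eq_true (s (1, t.2.1)) with e1 | e1 <;>
    rcases Bool.eq_false_or_eq_true (s (2, t.2.2)) with e2 | e2 <;> simp [e0, e1, e2]

theorem pP_good (t : Tr k) (s : Sd k) : (pP t s).Good := by
  constructor
  · intro a b; simp only [pP]; split_ifs <;> norm_num
  · intro a b; simp only [pP]; split_ifs <;> norm_num
  · intro a b
    simp only [pP]
    by_cases hab : a = t.1 ∧ b = t.2.2
    · obtain ⟨rfl, rfl⟩ := hab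
      by_cases ho : One t s
      · have : s (0, t.1) = s (2, t.2.2) := ho.1
        simp [ho, this]
      · simp only [ho, if_false, if_true, and_self]
        split_ifs <;> norm_num
    · rw [if_neg hab]
      split_ifs <;> norm_num
  · intro i y j
    simp only [pP]
    by_cases h1 : i = t.1 ∧ j = t.2.2
    · obtain ⟨rfl, rfl⟩ := h1
      by_cases h2 : y = t.2.1
      · subst h2
        by_cases ho : One t s
        · have e1 : s (0, t.1) = s (2, t.2.2) := ho.1
          have e2 : s (1, t.2.1) ≠ s (0, t.1) := ho.2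
          have e3 : s (1, t.2.1) ≠ s (2, t.2.2) := e1 ▸ e2
          simp [ho, e1, e3, Ne.symm e3]
        · have := (not_one_iff t s).1 ho
          simp only [ho, if_false, if_true, and_self]
          omega
      · by_cases ho : One t s
        · have e1 : s (0, t.1) = s (2, t.2.2) := ho.1
          simp only [h2, ho, e1, if_true, and_self, and_false, false_and, if_false, ne_eq,
            not_true_eq_false]
          split_ifs <;> norm_num
        · simp only [h2, ho, if_true, and_self, and_false, false_and, if_false]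
          split_ifs <;> norm_num
    · rw [if_neg h1]
      have h3 : ¬ ((i = t.1 ∧ y = t.2.1) ∧ (y = t.2.1 ∧ j = t.2.2)) := by tauto
      by_cases h4 : i = t.1 ∧ y = t.2.1
      · have h5 : ¬ (y = t.2.1 ∧ j = t.2.2) := by tauto
        rw [if_pos h4, if_neg h5]
        split_ifs <;> norm_num
      · rw [if_neg h4]
        split_ifs <;> norm_num

theorem pM_good (t : Tr k) (s : Sd k) : (pM t s).Good := by
  constructor
  · intro a b; simp only [pM]; split_ifs <;> norm_num
  · intro a b; simp only [pM]; split_ifs <;> norm_num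
  · intro a b
    simp only [pM]
    by_cases hab : a = t.1 ∧ b = t.2.2
    · obtain ⟨rfl, rfl⟩ := hab
      by_cases ho : One t s
      · have : s (0, t.1) = s (2, t.2.2) := ho.1
        simp [ho, this]
      · simp only [ho, if_false, if_true, and_self]
        split_ifs <;> norm_num
    · rw [if_neg hab]
      split_ifs <;> norm_num
  · intro i y j
    simp only [pM]
    by_cases h1 : i = t.1 ∧ j = t.2.2
    · obtain ⟨rfl, rfl⟩ := h1
      by_cases h2 : y = t.2.1
      · subst h2
        by_cases ho : One t s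
        · have e1 : s (0, t.1) = s (2, t.2.2) := ho.1
          have e2 : s (1, t.2.1) ≠ s (0, t.1) := ho.2
          have e3 : s (1, t.2.1) ≠ s (2, t.2.2) := e1 ▸ e2
          simp [ho, e1, e3, Ne.symm e3]
        · have h6 := (not_one_iff t s).1 ho
          have h7 : (if s (0, t.1) ≠ s (2, t.2.2) then 50 else 0) ≤ 50 := by
            split_ifs <;> norm_num
          simp only [ho, if_false, if_true, and_self]
          omega
      · have h8 : ¬ (y = t.2.1 ∧ t.2.2 = t.2.2) := by tauto
        have h9 : ¬ (t.1 = t.1 ∧ y = t.2.1) := by tauto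
        rw [if_neg h8, if_neg h9]
        split_ifs <;> norm_num
    · rw [if_neg h1]
      by_cases h4 : i = t.1 ∧ y = t.2.1
      · have h5 : ¬ (y = t.2.1 ∧ j = t.2.2) := by tauto
        rw [if_pos h4, if_neg h5]
        split_ifs <;> norm_num
      · rw [if_neg h4]
        split_ifs <;> norm_num

end Pool.Agent.TH697.Apsp
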