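import Pool.Agent.TH697.Apsp.Defs
import Pool.Agent.TH697.Apsp.Cut
import Pool.Agent.H575R2.Farkas

set_option autoImplicit false

/-! # Separation, distances, and the instances -/

namespace Pool.Agent.TH697.Apsp

open Finset

/-! ## Farkas -/

/-- A rejected input violates a nonnegative combination of the inequalities. -/
theorem LP.sep {E : Type} [Fintype E] {m : ℕ} (P : LP E m) (q : E → ℝ) (hq : ¬ P.Accepts q) :
    ∃ L : Fin m → ℝ, (∀ l, 0 ≤ L l) ∧ (∀ j, ∑ l, L l * P.B l j = 0) ∧
      ∑ l, L l * (P.c l - ∑ e, P.A l e * q e) < 0 := by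
  classical
  obtain ⟨b, hb⟩ : ∃ b : Fin m → ℝ, ∀ l, b l = P.c l - ∑ e, P.A l e * q e := ⟨_, fun _ => rfl⟩
  have hq' : ¬ ∃ y : Fin P.p → ℝ, ∀ l, ∑ j, P.B l j * y j ≤ b l := by
    rintro ⟨y, hy⟩
    refine hq ⟨y, fun l => ?_⟩
    have := hy l
    rw [hb] at this
    linarith
  -- functionals on `(y, t)`
  let f1 : Fin m → ((Fin P.p → ℝ) × ℝ →ₗ[ℝ] ℝ) := fun l =>
    (∑ j, P.B l j • (LinearMap.proj j).comp (LinearMap.fst ℝ (Fin P.p → ℝ) ℝ)) -
      b l • LinearMap.snd ℝ (Fin P.p → ℝ) ℝ
  let g : Fin (m + 1) → ((Fin P.p → ℝ) × ℝ →ₗ[ℝ] ℝ) :=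
    Fin.snoc f1 (-(LinearMap.snd ℝ (Fin P.p → ℝ) ℝ))
  have hf1 : ∀ l y t, f1 l (y, t) = ∑ j, P.B l j * y j - b l * t := by
    intro l y t
    simp [f1]
  have hg1 : ∀ l y t, g (Fin.castSucc l) (y, t) = ∑ j, P.B l j * y j - b l * t := by
    intro l y t
    simp only [g, Fin.snoc_castSucc]
    exact hf1 l y t
  have hg2 : ∀ y t, g (Fin.last m) (y, t) = -t := by
    intro y t
    simp [g]
  obtain ⟨w, hw, hwf⟩ := H575R2.farkas_lin (m + 1) g (LinearMap.snd ℝ (Fin P.p → ℝ) ℝ) (by
    rintro ⟨y, t⟩ h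
    by_contra hcon
    have ht : 0 < t := not_le.1 hcon
    apply hq'
    refine ⟨fun j => y j / t, fun l => ?_⟩
    have h1 := h (Fin.castSucc l)
    rw [hg1] at h1
    have h2 : ∑ j, P.B l j * (y j / t) = (∑ j, P.B l j * y j) / t := by
      rw [Finset.sum_div]
      exact sum_congr rfl fun j _ => by ring
    rw [h2, div_le_iff₀ ht]
    linarith)
  refine ⟨fun l => w (Fin.castSucc l), fun l => hw _, ?_, ?_⟩
  · intro j
    have h1 := hwf (Pi.single j 1, 0)
    rw [Fin.sum_univ_castSucc, hg2] at h1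
    simp only [hg1, LinearMap.snd_apply, mul_zero, sub_zero, neg_zero, add_zero] at h1
    have h2 : ∀ l, ∑ j', P.B l j' * (Pi.single j (1 : ℝ) : Fin P.p → ℝ) j' = P.B l j := by
      intro l
      rw [Finset.sum_eq_single j]
      · simp
      · intro j' _ hj'
        simp [Pi.single_eq_of_ne hj']
      · simp
    simp only [h2] at h1
    exact h1.symm
  · have h1 := hwf (0, 1)
    rw [Fin.sum_univ_castSucc, hg2] at h1
    simp only [hg1, LinearMap.snd_apply, Pi.zero_apply, mul_zero, sum_const_zero, mul_one,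
      zero_sub] at h1
    have h2 := hw (Fin.last m)
    have h3 : ∑ l, w (Fin.castSucc l) * (P.c l - ∑ e, P.A l e * q e) =
        - ∑ l, w (Fin.castSucc l) * -b l := by
      rw [← sum_neg_distrib]
      refine sum_congr rfl fun l _ => ?_
      rw [hb]
      ring
    rw [h3]
    linarith

/-! ## distances -/

theorem le_len {V : Type} (w : V → V → ℕ) (h : ∀ u x v, w u v ≤ w u x + w x v) (l : List V) :
    ∀ u v, w u v ≤ len w u l v := by
  induction l with
  | nil => intro u v; exact le_rfl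
  | cons x l ih =>
    intro u v
    exact (h u x v).trans (Nat.add_le_add_left (ih x v) _)

theorem dist_le_len {V : Type} (w : V → V → ℕ) (u v : V) (l : List V) :
    dist w u v ≤ len w u l v := Nat.sInf_le ⟨l, rfl⟩

theorem dist_eq_of_triangle {V : Type} (w : V → V → ℕ) (h : ∀ u x v, w u v ≤ w u x + w x v)
    (u v : V) : dist w u v = w u v := by
  apply le_antisymm
  · exact dist_le_len w u v []
  · have hne : (Set.range fun l => len w u l v).Nonempty := ⟨_, [], rfl⟩
    obtain ⟨l, hl⟩ := Nat.sInf_mem hne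
    unfold dist
    rw [← hl]
    exact le_len w h l u v

theorem triangle_of_dist_eq {V : Type} (w : V → V → ℕ) (h : ∀ u v, dist w u v = w u v)
    (u x v : V) : w u v ≤ w u x + w x v := by
  rw [← h u v]
  exact dist_le_len w u v [x]

/-! ## the graphs -/

/-- The vertices: three parts of size `k` and `r` other vertices. -/
abbrev Vt (k r : ℕ) : Type := (Fin k ⊕ Fin k) ⊕ (Fin k ⊕ Fin r)

/-- The weights: `x0` between the first and the second part, `x1` between the second and the third
part, `x2` between the first and the third part, and `600` for all other edges. -/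
def wt {k r : ℕ} (x0 x1 x2 : Fin k → Fin k → ℕ) : Vt k r → Vt k r → ℕ
  | .inl (.inl i), .inl (.inl i') => if i = i' then 0 else 600
  | .inl (.inl i), .inl (.inr y) => x0 i y
  | .inl (.inl i), .inr (.inl j) => x2 i j
  | .inl (.inl _), .inr (.inr _) => 600
  | .inl (.inr y), .inl (.inl i) => x0 i y
  | .inl (.inr y), .inl (.inr y') => if y = y' then 0 else 600
  | .inl (.inr y), .inr (.inl j) => x1 y j
  | .inl (.inr _), .inr (.inr _) => 600
  | .inr (.inl j), .inl (.inl i) => x2 i j
  | .inr (.inl j), .inl (.inr y) => x1 y j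
  | .inr (.inl j), .inr (.inl j') => if j = j' then 0 else 600
  | .inr (.inl _), .inr (.inr _) => 600
  | .inr (.inr _), .inl (.inl _) => 600
  | .inr (.inr _), .inl (.inr _) => 600
  | .inr (.inr _), .inr (.inl _) => 600
  | .inr (.inr o), .inr (.inr o') => if o = o' then 0 else 600

section

variable {k r : ℕ} {x0 x1 x2 : Fin k → Fin k → ℕ}

theorem wt_self (u : Vt k r) : wt x0 x1 x2 u u = 0 := by
  rcases u with (i | y) | (j | o) <;> simp [wt]

theorem wt_symm (u v : Vt k r) : wt x0 x1 x2 u v = wt x0 x1 x2 v u := by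
  rcases u with (i | y) | (j | o) <;> rcases v with (i' | y') | (j' | o') <;>
    simp [wt, eq_comm]

theorem wt_low (h0 : ∀ a b, 350 ≤ x0 a b) (h1 : ∀ a b, 350 ≤ x1 a b) (h2 : ∀ a b, 700 ≤ x2 a b)
    (u v : Vt k r) (huv : u ≠ v) : 350 ≤ wt x0 x1 x2 u v := by
  rcases u with (i | y) | (j | o) <;> rcases v with (i' | y') | (j' | o') <;>
    simp only [wt, ne_eq, Sum.inl.injEq, Sum.inr.injEq] at huv ⊢ <;>
    first
    | exact h0 _ _
    | exact h1 _ _
    | exact le_trans (by norm_num) (h2 _ _)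
    | (rw [if_neg huv]; norm_num)
    | norm_num

theorem wt_up (h0 : ∀ a b, x0 a b ≤ 600) (h1 : ∀ a b, x1 a b ≤ 600) (h2 : ∀ a b, x2 a b ≤ 900)
    (u v : Vt k r) : wt x0 x1 x2 u v ≤ 900 := by
  rcases u with (i | y) | (j | o) <;> rcases v with (i' | y') | (j' | o') <;>
    simp only [wt] <;>
    first
    | exact le_trans (h0 _ _) (by norm_num)
    | exact le_trans (h1 _ _) (by norm_num)
    | exact h2 _ _
    | (split_ifs <;> norm_num)
    | norm_num

theorem wt_triangle (h0 : ∀ a b, 350 ≤ x0 a b ∧ x0 a b ≤ 600)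
    (h1 : ∀ a b, 350 ≤ x1 a b ∧ x1 a b ≤ 600) (h2 : ∀ a b, 700 ≤ x2 a b ∧ x2 a b ≤ 900)
    (hf : ∀ i y j, x2 i j ≤ x0 i y + x1 y j) (u x v : Vt k r) :
    wt x0 x1 x2 u v ≤ wt x0 x1 x2 u x + wt x0 x1 x2 x v := by
  by_cases hux : u = x
  · subst hux; rw [wt_self]; omega
  by_cases hxv : x = v
  · subst hxv; rw [wt_self]; omega
  have l1 := wt_low (fun a b => (h0 a b).1) (fun a b => (h1 a b).1) (fun a b => (h2 a b).1)
    u x hux
  have l2 := wt_low (fun a b => (h0 a b).1) (fun a b => (h1 a b).1) (fun a b => (h2 a b).1)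
    x v hxv
  -- the main case
  have main : ∀ (i j : Fin k) (z : Vt k r), (Sum.inl (Sum.inl i) : Vt k r) ≠ z →
      z ≠ (Sum.inr (Sum.inl j) : Vt k r) →
      x2 i j ≤ wt x0 x1 x2 (Sum.inl (Sum.inl i) : Vt k r) z +
        wt x0 x1 x2 z (Sum.inr (Sum.inl j) : Vt k r) := by
    intro i j z hx1 hx2
    have k1 := (h2 i j).2
    rcases z with (i' | y) | (j' | o)
    · have k2 := (h2 i' j).1
      simp only [ne_eq, Sum.inl.injEq] at hx1
      simp only [wt, if_neg hx1]
      omega
    · simp only [wt]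
      exact hf i y j
    · have k2 := (h2 i j').1
      simp only [ne_eq, Sum.inr.injEq, Sum.inl.injEq] at hx2
      simp only [wt, if_neg hx2]
      omega
    · simp only [wt]
      omega
  have easy : wt x0 x1 x2 u v ≤ 700 →
      wt x0 x1 x2 u v ≤ wt x0 x1 x2 u x + wt x0 x1 x2 x v := by
    intro h; omega
  rcases u with (i | y) | (j | o) <;> rcases v with (i' | y') | (j' | o')
  · apply easy; simp only [wt]; split_ifs <;> norm_num
  · apply easy; simp only [wt]; exact le_trans (h0 _ _).2 (by norm_num)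
  · exact main _ _ _ hux hxv
  · apply easy; simp only [wt]; norm_num
  · apply easy; simp only [wt]; exact le_trans (h0 _ _).2 (by norm_num)
  · apply easy; simp only [wt]; split_ifs <;> norm_num
  · apply easy; simp only [wt]; exact le_trans (h1 _ _).2 (by norm_num)
  · apply easy; simp only [wt]; norm_num
  · have k3 := main i' j x (Ne.symm hxv) (Ne.symm hux)
    have s1 := wt_symm (x0 := x0) (x1 := x1) (x2 := x2) (Sum.inl (Sum.inl i') : Vt k r) x
    have s2 := wt_symm (x0 := x0) (x1 := x1) (x2 := x2) x (Sum.inr (Sum.inl j) : Vt k r)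
    have e : wt x0 x1 x2 (Sum.inr (Sum.inl j) : Vt k r) (Sum.inl (Sum.inl i')) = x2 i' j := rfl
    omega
  · apply easy; simp only [wt]; exact le_trans (h1 _ _).2 (by norm_num)
  · apply easy; simp only [wt]; split_ifs <;> norm_num
  · apply easy; simp only [wt]; norm_num
  · apply easy; simp only [wt]; norm_num
  · apply easy; simp only [wt]; norm_num
  · apply easy; simp only [wt]; norm_num
  · apply easy; simp only [wt]; split_ifs <;> norm_num

end

end Pool.Agent.TH697.Apsp
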